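import Pool.Agent.Work.MP_2738db_nt_Y.Interface

set_option autoImplicit false

namespace Pool.Agent.Work.MP_2738db_nt_Y.helper83

open Finset Polynomial Pool.Agent.Work.MP_2738db_nt_Y

theorem periodic_const (p : ℚ[X]) (D : ℚ) (hD : D ≠ 0) (h : ∀ x : ℚ, p.eval (x + D) = p.eval x) :
    p = C (p.eval 0) := by
  have h1 : ∀ n : ℕ, p.eval ((n : ℚ) * D) = p.eval 0 := by
    intro n
    induction n with
    | zero => simp
    | succ n ih =>
      have e : ((n + 1 : ℕ) : ℚ) * D = (n : ℚ) * D + D := by push_cast; ring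
      rw [e, h, ih]
  apply Polynomial.eq_of_infinite_eval_eq
  apply Set.infinite_of_injective_forall_mem (f := fun n : ℕ => (n : ℚ) * D)
  · intro a b hab
    have : (a : ℚ) = b := mul_right_cancel₀ hD hab
    exact_mod_cast this
  · intro n
    simp only [Set.mem_ofPred_eq, eval_C]
    exact h1 n

theorem shift_injective (b : ℚ) :
    Function.Injective (compRingHom (X + C b) : ℚ[X] →+* ℚ[X]) := by
  intro p q h
  have h1 : p.comp (X + C b) = q.comp (X + C b) := h
  have h2 := congrArg (fun r : ℚ[X] => r.comp (X - C b)) h1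
  simpa [Polynomial.comp_assoc] using h2

theorem leadingCoeff_tr (a b : ℚ) (Q : ℚ[X][X]) :
    (tr a b Q).leadingCoeff = Q.leadingCoeff.comp (X + C b) := by
  unfold tr
  rw [leadingCoeff_comp (by rw [natDegree_X_add_C]; exact one_ne_zero), leadingCoeff_X_add_C,
    one_pow, mul_one, leadingCoeff_map_of_injective (shift_injective b)]
  rfl

theorem ev_tr (a b x y : ℚ) (Q : ℚ[X][X]) : ev x y (tr a b Q) = ev (x + a) (y + b) Q := by
  unfold ev tr
  rw [eval_comp, eval_add, eval_X, eval_C, ← C_add, eval_map]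
  have h : (C (x + a) : ℚ[X]) = compRingHom (X + C b) (C (x + a)) := by simp
  rw [h, Polynomial.eval₂_hom]
  simp [eval_comp]

theorem eq_of_associated (a b : ℚ) (Q : ℚ[X][X]) (h : Associated (tr a b Q) Q) :
    tr a b Q = Q := by
  by_cases hQ : Q = 0
  · subst hQ; unfold tr; simp
  obtain ⟨u, hu⟩ := h
  obtain ⟨q, hq, hq'⟩ := Polynomial.isUnit_iff.mp u.isUnit
  obtain ⟨c, hc, hc'⟩ := Polynomial.isUnit_iff.mp hq
  rw [← hq', ← hc'] at hu
  have h1 := congrArg (fun r : ℚ[X][X] => r.leadingCoeff.leadingCoeff) hu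
  simp only [leadingCoeff_mul, leadingCoeff_C, leadingCoeff_tr] at h1
  rw [leadingCoeff_comp (by rw [natDegree_X_add_C]; exact one_ne_zero), leadingCoeff_X_add_C,
    one_pow, mul_one] at h1
  have h2 : Q.leadingCoeff.leadingCoeff ≠ 0 := by
    rw [Ne, leadingCoeff_eq_zero, leadingCoeff_eq_zero]; exact hQ
  have h3 : c = 1 := by
    have : Q.leadingCoeff.leadingCoeff * c = Q.leadingCoeff.leadingCoeff * 1 := by rw [h1, mul_one]
    exact mul_left_cancel₀ h2 this
  rw [h3, C_1, C_1, mul_one] at hu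
  exact hu

theorem tra : Stmt_Tra := by
  intro Q v w hvw hv hw
  have hv' : ∀ x y : ℚ, ev (x + v.1) (y + v.2) Q = ev x y Q := by
    intro x y; rw [← ev_tr, eq_of_associated _ _ _ hv]
  have hw' : ∀ x y : ℚ, ev (x + w.1) (y + w.2) Q = ev x y Q := by
    intro x y; rw [← ev_tr, eq_of_associated _ _ _ hw]
  -- periods form a group
  let Per : AddSubgroup (ℚ × ℚ) :=
    { carrier := {s | ∀ x y : ℚ, ev (x + s.1) (y + s.2) Q = ev x y Q}
      zero_mem' := by intro x y; simp
      add_mem' := by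
        intro s t hs ht x y
        have h1 := hs (x + t.1) (y + t.2)
        have h2 := ht x y
        simp only [Prod.fst_add, Prod.snd_add]
        rw [show x + (s.1 + t.1) = x + t.1 + s.1 by ring, show y + (s.2 + t.2) = y + t.2 + s.2 by ring,
          h1, h2]
      neg_mem' := by
        intro s hs x y
        have h1 := hs (x - s.1) (y - s.2)
        simp only [Prod.fst_neg, Prod.snd_neg]
        rw [← sub_eq_add_neg, ← sub_eq_add_neg, ← h1, sub_add_cancel, sub_add_cancel] }
  have hvP : ((v.1 : ℚ), (v.2 : ℚ)) ∈ Per := hv'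
  have hwP : ((w.1 : ℚ), (w.2 : ℚ)) ∈ Per := hw'
  set D : ℚ := v.1 * w.2 - v.2 * w.1 with hD
  have hD0 : D ≠ 0 := by
    rw [hD, sub_ne_zero]; exact_mod_cast hvw
  have h1 : ((D, 0) : ℚ × ℚ) ∈ Per := by
    have h := Per.sub_mem (Per.zsmul_mem hvP w.2) (Per.zsmul_mem hwP v.2)
    have e : w.2 • ((v.1 : ℚ), (v.2 : ℚ)) - v.2 • ((w.1 : ℚ), (w.2 : ℚ)) = (D, 0) := by
      ext
      · simp [hD]; ring
      · simp; ring
    rwa [e] at h
  have h2 : ((0, D) : ℚ × ℚ) ∈ Per := by
    have h := Per.sub_mem (Per.zsmul_mem hwP v.1) (Per.zsmul_mem hvP w.1)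
    have e : v.1 • ((w.1 : ℚ), (w.2 : ℚ)) - w.1 • ((v.1 : ℚ), (v.2 : ℚ)) = (0, D) := by
      ext
      · simp; ring
      · simp [hD]; ring
    rwa [e] at h
  have h1' : ∀ x y : ℚ, ev (x + D) y Q = ev x y Q := by
    intro x y
    have := h1 x y
    simpa using this
  have h2' : ∀ x y : ℚ, ev x (y + D) Q = ev x y Q := by
    intro x y
    have := h2 x y
    simpa using this
  have hevmap : ∀ x y : ℚ, ev x y Q = (Q.map (evalRingHom y)).eval x := by
    intro x y
    unfold ev
    have h := Polynomial.eval₂_hom (p := Q) (evalRingHom y) (C x)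
    rw [coe_evalRingHom, eval_C] at h
    rw [eval_map, h]
  -- outer variable
  have hcoef : ∀ i : ℕ, i ≠ 0 → Q.coeff i = 0 := by
    intro i hi
    apply Polynomial.funext
    intro y
    have h3 := periodic_const (Q.map (evalRingHom y)) D hD0 (by
      intro x; rw [← hevmap, ← hevmap]; exact h1' x y)
    have h4 := congrArg (fun r : ℚ[X] => r.coeff i) h3
    simp only [coeff_map, coe_evalRingHom, coeff_C, hi, if_false] at h4
    rw [h4, eval_zero]
  have hQC : Q = C (Q.coeff 0) := by
    ext1 i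
    rw [coeff_C]
    split_ifs with h
    · rw [h]
    · exact hcoef i h
  have h5 : ∀ y : ℚ, (Q.coeff 0).eval (y + D) = (Q.coeff 0).eval y := by
    intro y
    have := h2' 0 y
    rw [hQC] at this
    unfold ev at this
    rw [eval_C] at this
    exact this
  have h6 := periodic_const _ D hD0 h5
  exact ⟨_, by rw [hQC, h6]⟩

end Pool.Agent.Work.MP_2738db_nt_Y.helper83
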